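import Mathlib
import Pool.Agent.Helper126.Sus.Forc
import Pool.Agent.W876.Two.Gen
import Pool.Agent.W876.Dlt.Main

/-!
# A Delta-set whose square is not a Delta-set

There is a forcing notion with the countable chain condition such that in the extension there is a
set `X` of `ℵ₁` points of the Cantor set which is a `Δ`-set and whose square is not a `Δ`-set. The
ground model is arbitrary.
-/

namespace Pool.Agent.Results.MP_d5ec8b_lc.DeltaSquare

open Cardinal Pool.Agent.Helper126.Sus.Forc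

open Pool.Agent.W876.Two.Gen (CardinalsPreserved)

open Pool.Agent.W876.Dlt (Distinct Ext DeltaSpace Sq)

theorem result :
    ∃ (P : Type) (_ : Preorder P), Nonempty P ∧ CCC P ∧ (∀ p : P, p ∈ CardinalsPreserved P) ∧
      ∃ (I : Type) (x : I → ℕ → Set P), #I = ℵ_ 1 ∧ ∀ p : P,
        p ∈ Distinct x ∧ p ∈ DeltaSpace (Ext x) ∧ p ∈ fnot (DeltaSpace (Sq (Ext x))) := by
  obtain ⟨g, hg⟩ := Pool.Agent.W876.Dlt.exists_book
  have h1 : ℵ₀ ≤ ℵ_ 1 := aleph0_le_aleph 1
  have hne : Nonempty (Pool.Agent.W876.Prox.Book.Len ⊕ (K1 × Bool)) := by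
    have : Nonempty Pool.Agent.W876.Prox.Book.Len := by
      rw [← mk_ne_zero_iff, Pool.Agent.W876.Prox.Book.mk_Len]
      exact (aleph0_pos.trans_le (h1.trans (cantor _).le)).ne'
    exact inferInstance
  have hP : Pool.Agent.W876.Two.Gen.Ccc (Pool.Agent.W876.Dlt.Cd g) :=
    fun {Y} f hY => Pool.Agent.W876.Dlt.ccc f hY
  refine ⟨Pool.Agent.W876.Dlt.Cd g, inferInstance, inferInstance,
    Pool.Agent.W876.Two.Gen.CCC_of hP, Pool.Agent.W876.Two.Gen.cardinalsPreserved hP,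
    K1 × Bool, Pool.Agent.W876.Dlt.pt, ?_, fun p => ⟨Pool.Agent.W876.Dlt.distinct p,
      Pool.Agent.W876.Dlt.delta hg p, Pool.Agent.W876.Dlt.not_delta p⟩⟩
  have hB : #Bool ≤ ℵ_ 1 := (mk_le_aleph0).trans h1
  have hK : #K1 = ℵ_ 1 := Pool.Agent.W876.Prox.Omega.mk_K1
  rw [mk_prod, lift_id, lift_id, hK]
  exact Cardinal.mul_eq_left h1 hB (by simp)

end Pool.Agent.Results.MP_d5ec8b_lc.DeltaSquare
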